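import Pool.Agent.N787.PC.Gcd

/-!
# PC/GCD (helper787, project PC of helper753): the theorem
-/

set_option autoImplicit false

namespace Pool.Agent.N787.PC.Gcd

open NumberField IsDedekindDomain Module Polynomial
open Pool.Agent.N753.DR Pool.Agent.N97.DR.Core

lemma rare_of_ev {X : Type} {N : ℝ} (hN : 1 ≤ N) {E : ℕ → Set X} (hfin : ∀ B, (E B).Finite)
    (ν C : ℝ) (hν : 0 < ν) (B₀ : ℕ)
    (h : ∀ B, B₀ ≤ B → 1 ≤ B → ((E B).ncard : ℝ) ≤ C * (B : ℝ) ^ (N - ν)) : Rare N E := by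
  classical
  have h1 : Rare N (fun B => if B₀ ≤ B then E B else ∅) := by
    refine ⟨ν, |C|, hν, fun B hB => ?_⟩
    have hp : (0 : ℝ) ≤ (B : ℝ) ^ (N - ν) := by positivity
    by_cases hb : B₀ ≤ B
    · simp only [if_pos hb]
      exact (h B hb hB).trans (mul_le_mul_of_nonneg_right (le_abs_self C) hp)
    · simp only [if_neg hb, Set.ncard_empty, Nat.cast_zero]
      positivity
  refine h1.of_large hN B₀ (fun B => ?_) fun B hB => ?_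
  · by_cases hb : B₀ ≤ B
    · simp only [if_pos hb]
      exact hfin B
    · simp only [if_neg hb]
      exact Set.finite_empty
  · simp only [if_pos hB]
    exact subset_rfl

lemma ev_log (M : ℝ) : ∃ B₀ : ℕ, ∀ B : ℕ, B₀ ≤ B → M ≤ Real.log B := by
  have h := (Real.tendsto_log_atTop.comp (tendsto_natCast_atTop_atTop (R := ℝ))).eventually_ge_atTop M
  obtain ⟨B₀, h0⟩ := Filter.eventually_atTop.1 h
  exact ⟨B₀, h0⟩

section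

variable {K : Type} [Field K] [NumberField K]

/-- the conclusion of MOD with the constant and the threshold -/
structure MD {n : ℕ} (G : MvPolynomial (Fin n) (𝓞 K)) (C : ℝ) (P : ℕ) : Prop where
  zer : ∀ X : ℕ, 1 ≤ X → ({c ∈ Bx K n X | MvPolynomial.eval c G = 0}.ncard : ℝ) ≤
    C * (X : ℝ) ^ ((finrank ℚ K : ℝ) * n - 1)
  one : ∀ X : ℕ, 1 ≤ X → ∀ p : ℕ, p.Prime → P ≤ p →
    ({c ∈ Bx K n X | Meet G c p}.ncard : ℝ) ≤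
      C * (X : ℝ) ^ ((finrank ℚ K : ℝ) * n) * (1 / p + 1 / X)
  many : ∀ X : ℕ, 1 ≤ X → ∀ Q : Finset ℕ, (∀ p ∈ Q, p.Prime ∧ P ≤ p) → ∏ p ∈ Q, p ≤ X →
    ({c ∈ Bx K n X | ∀ p ∈ Q, Meet G c p}.ncard : ℝ) ≤
      C ^ (Q.card + 1) * (X : ℝ) ^ ((finrank ℚ K : ℝ) * n) / ∏ p ∈ Q, (p : ℝ)

lemma MD.mono {n : ℕ} {G : MvPolynomial (Fin n) (𝓞 K)} {C C' : ℝ} {P P' : ℕ} (h : MD G C P)
    (hC : 0 ≤ C) (hC' : C ≤ C') (hP : P ≤ P') : MD G C' P' where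
  zer X hX := (h.zer X hX).trans (mul_le_mul_of_nonneg_right hC' (by positivity))
  one X hX p hp hp' := (h.one X hX p hp (hP.trans hp')).trans (by
    rw [mul_assoc, mul_assoc]
    exact mul_le_mul_of_nonneg_right hC' (by positivity))
  many X hX Q hQ hQX := (h.many X hX Q (fun p hp => ⟨(hQ p hp).1, hP.trans (hQ p hp).2⟩) hQX).trans
    (div_le_div_of_nonneg_right (mul_le_mul_of_nonneg_right
      (pow_le_pow_left₀ hC hC' _) (by positivity)) (Finset.prod_nonneg fun p _ => by positivity))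

lemma MD.box {n : ℕ} {G : MvPolynomial (Fin n) (𝓞 K)} {C : ℝ} {P : ℕ} (h : MD G C P) (X : ℕ)
    (hX : 1 ≤ X) : ((Bx K n X).ncard : ℝ) ≤ C * (X : ℝ) ^ ((finrank ℚ K : ℝ) * n) := by
  have h1 := h.many X hX ∅ (fun p hp => absurd hp (Finset.notMem_empty p)) (by simpa using hX)
  have e : {c ∈ Bx K n X | ∀ p ∈ (∅ : Finset ℕ), Meet G c p} = Bx K n X := by
    ext c
    simp
  rw [e, Finset.card_empty, Finset.prod_empty, zero_add, pow_one, div_one] at h1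
  exact h1

lemma pow_cast (B ρ : ℕ) (s : ℝ) : (((B ^ ρ : ℕ) : ℝ)) ^ s = (B : ℝ) ^ ((ρ : ℝ) * s) := by
  rw [Nat.cast_pow, ← Real.rpow_natCast, ← Real.rpow_mul (Nat.cast_nonneg B)]

/-- the set of (b) -/
def Ab {n₁ n₂ : ℕ} (G₁ : MvPolynomial (Fin n₁) (𝓞 K)) (G₂ : MvPolynomial (Fin n₂) (𝓞 K))
    (ρ₁ ρ₂ P : ℕ) (δ : ℝ) (B : ℕ) : Set ((Fin n₁ → 𝓞 K) × (Fin n₂ → 𝓞 K)) :=
  {c | c.1 ∈ Bx K n₁ (B ^ ρ₁) ∧ c.2 ∈ Bx K n₂ (B ^ ρ₂) ∧ MvPolynomial.eval c.1 G₁ ≠ 0 ∧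
    ∃ p : ℕ, p.Prime ∧ P ≤ p ∧ δ * Real.log B ≤ Real.log p ∧ Meet G₁ c.1 p ∧ Meet G₂ c.2 p}

/-- the set of (c) -/
def As {n₁ n₂ : ℕ} (G₁ : MvPolynomial (Fin n₁) (𝓞 K)) (G₂ : MvPolynomial (Fin n₂) (𝓞 K))
    (ρ₁ ρ₂ P : ℕ) (κ : ℝ) (B : ℕ) : Set ((Fin n₁ → 𝓞 K) × (Fin n₂ → 𝓞 K)) :=
  {c | c.1 ∈ Bx K n₁ (B ^ ρ₁) ∧ c.2 ∈ Bx K n₂ (B ^ ρ₂) ∧ ∃ q : ℕ, Squarefree q ∧ q ≤ B ∧
    κ / 2 * Real.log B < Real.log q ∧
    ∀ p ∈ q.primeFactors, P ≤ p ∧ Meet G₁ c.1 p ∧ Meet G₂ c.2 p}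

lemma bx_prod {n₁ n₂ : ℕ} (X₁ X₂ : ℕ) {S : Set ((Fin n₁ → 𝓞 K) × (Fin n₂ → 𝓞 K))}
    (h : ∀ c ∈ S, c.1 ∈ Bx K n₁ X₁ ∧ c.2 ∈ Bx K n₂ X₂) : S.Finite :=
  ((Bx_finite n₁ X₁).prod (Bx_finite n₂ X₂)).subset fun c hc => h c hc

lemma rare_zero {n₁ n₂ : ℕ} {G₁ : MvPolynomial (Fin n₁) (𝓞 K)} {G₂ : MvPolynomial (Fin n₂) (𝓞 K)}
    {ρ₁ ρ₂ : ℕ} (hρ₁ : 1 ≤ ρ₁) {C : ℝ} {P : ℕ} (h₁ : MD G₁ C P) (h₂ : MD G₂ C P)
    (hC : 0 ≤ C) : Rare ((finrank ℚ K : ℝ) * (ρ₁ * n₁ + ρ₂ * n₂))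
      (fun B => {c : (Fin n₁ → 𝓞 K) × (Fin n₂ → 𝓞 K) | c.1 ∈ Bx K n₁ (B ^ ρ₁) ∧
        c.2 ∈ Bx K n₂ (B ^ ρ₂) ∧ MvPolynomial.eval c.1 G₁ = 0}) := by
  refine ⟨1, C * C, one_pos, fun B hB => ?_⟩
  have hB' : (1 : ℝ) ≤ B := by exact_mod_cast hB
  have e : {c : (Fin n₁ → 𝓞 K) × (Fin n₂ → 𝓞 K) | c.1 ∈ Bx K n₁ (B ^ ρ₁) ∧
        c.2 ∈ Bx K n₂ (B ^ ρ₂) ∧ MvPolynomial.eval c.1 G₁ = 0} =
      {c ∈ Bx K n₁ (B ^ ρ₁) | MvPolynomial.eval c G₁ = 0} ×ˢ Bx K n₂ (B ^ ρ₂) := by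
    ext c
    simp only [Set.mem_setOf_eq, Set.mem_prod]
    tauto
  beta_reduce
  rw [e, Set.ncard_prod, Nat.cast_mul]
  have h1 := h₁.zer (B ^ ρ₁) (Nat.one_le_pow _ _ hB)
  have h2 := h₂.box (B ^ ρ₂) (Nat.one_le_pow _ _ hB)
  rw [pow_cast] at h1 h2
  have hρ : (1 : ℝ) ≤ ρ₁ := by exact_mod_cast hρ₁
  calc _ ≤ (C * (B : ℝ) ^ ((ρ₁ : ℝ) * ((finrank ℚ K : ℝ) * n₁ - 1))) *
        (C * (B : ℝ) ^ ((ρ₂ : ℝ) * ((finrank ℚ K : ℝ) * n₂))) :=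
        mul_le_mul h1 h2 (Nat.cast_nonneg _) (by positivity)
    _ = C * C * ((B : ℝ) ^ ((ρ₁ : ℝ) * ((finrank ℚ K : ℝ) * n₁ - 1) +
        (ρ₂ : ℝ) * ((finrank ℚ K : ℝ) * n₂))) := by
        rw [Real.rpow_add (by linarith)]
        ring
    _ ≤ _ := by
        refine mul_le_mul_of_nonneg_left (rpow_le_rpow_nat hB ?_) (by positivity)
        nlinarith

lemma rare_big {n₁ n₂ : ℕ} (hN : 1 ≤ (finrank ℚ K : ℝ) * (((0 : ℕ) : ℝ) + 1))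
    {G₁ : MvPolynomial (Fin n₁) (𝓞 K)} {G₂ : MvPolynomial (Fin n₂) (𝓞 K)}
    {ρ₁ ρ₂ : ℕ} (hρ₂ : 1 ≤ ρ₂) (hN' : 1 ≤ (finrank ℚ K : ℝ) * (ρ₁ * n₁ + ρ₂ * n₂)) {C : ℝ} {P : ℕ}
    (h₁ : MD G₁ C P) (h₂ : MD G₂ C P) (hC : 0 ≤ C) {δ : ℝ} (hδ : 0 < δ) (hδ1 : δ ≤ 1) :
    Rare ((finrank ℚ K : ℝ) * (ρ₁ * n₁ + ρ₂ * n₂)) (Ab G₁ G₂ ρ₁ ρ₂ P δ) := by
  obtain ⟨A, Cn, hCn, hA⟩ := norm_bound G₁
  obtain ⟨B₀, hB₀⟩ := ev_log (max 1 (Real.log Cn))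
  refine rare_of_ev hN' (fun B => bx_prod (B ^ ρ₁) (B ^ ρ₂) fun c hc => ⟨hc.1, hc.2.1⟩) δ
    (2 * C ^ 2 * ((1 + A * ρ₁) / δ)) hδ B₀ fun B hb hB => ?_
  have hB' : (1 : ℝ) ≤ B := by exact_mod_cast hB
  have hBp : (0 : ℝ) < B := by linarith
  have hl := hB₀ B hb
  have hl1 : 1 ≤ Real.log B := (le_max_left _ _).trans hl
  have hl2 : Real.log Cn ≤ Real.log B := (le_max_right _ _).trans hl
  obtain ⟨W, hW⟩ : ∃ W : ℝ, W = C * (B : ℝ) ^ ((ρ₂ : ℝ) * ((finrank ℚ K : ℝ) * n₂)) *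
    (2 * (B : ℝ) ^ (-δ)) := ⟨_, rfl⟩
  have hW0 : 0 ≤ W := by rw [hW]; positivity
  have hNb : 0 ≤ (1 + (A : ℝ) * ρ₁) / δ := by positivity
  have hpr : ∀ p : ℕ, p.Prime → P ≤ p → δ * Real.log B ≤ Real.log p →
      ({c ∈ Bx K n₂ (B ^ ρ₂) | Meet G₂ c p}.ncard : ℝ) ≤ W := by
    intro p hp hP hlp
    refine (h₂.one (B ^ ρ₂) (Nat.one_le_pow _ _ hB) p hp hP).trans ?_
    rw [pow_cast, hW]
    refine mul_le_mul_of_nonneg_left ?_ (by positivity)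
    have hp0 : (0 : ℝ) < p := Nat.cast_pos.2 hp.pos
    have e1 : 1 / (p : ℝ) ≤ (B : ℝ) ^ (-δ) := by
      rw [Real.rpow_neg hBp.le, one_div]
      refine inv_anti₀ (by positivity) ?_
      rw [Real.rpow_def_of_pos hBp, ← Real.le_log_iff_exp_le hp0]
      linarith
    have e2 : 1 / (((B ^ ρ₂ : ℕ) : ℝ)) ≤ (B : ℝ) ^ (-δ) := by
      rw [Real.rpow_neg hBp.le, one_div]
      refine inv_anti₀ (by positivity) ?_
      rw [Nat.cast_pow, ← Real.rpow_natCast]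
      refine rpow_le_rpow_nat hB (hδ1.trans ?_)
      exact_mod_cast hρ₂
    linarith
  have key := fib (Ab G₁ G₂ ρ₁ ρ₂ P δ B) (Bx_finite (K := K) n₁ (B ^ ρ₁)).toFinset
    (fun x hx => (Set.Finite.mem_toFinset _).2 hx.1) ((1 + A * ρ₁) / δ * W) (fun a ha => by
      by_cases h0 : MvPolynomial.eval a G₁ = 0
      · have e : {b | (a, b) ∈ Ab G₁ G₂ ρ₁ ρ₂ P δ B} = ∅ := by
          ext b
          simp only [Set.mem_setOf_eq, Set.mem_empty_iff_false, iff_false]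
          intro h
          exact h.2.2.1 h0
        rw [e, Set.ncard_empty, Nat.cast_zero]
        positivity
      · have ha' := (Set.Finite.mem_toFinset _).1 ha
        have h3 := hA (B ^ ρ₁) (Nat.one_le_pow _ _ hB) a ha'
        have hn : (0 : ℝ) < Ideal.absNorm (Ideal.span {MvPolynomial.eval a G₁}) := by
          rw [Nat.cast_pos, Nat.pos_iff_ne_zero, Ne, Ideal.absNorm_eq_zero_iff,
            Ideal.span_singleton_eq_bot]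
          exact h0
        have h4 : Real.log (Ideal.absNorm (Ideal.span {MvPolynomial.eval a G₁})) ≤
            (1 + A * ρ₁) * Real.log B := by
          refine (Real.log_le_log hn h3).trans ?_
          rw [Real.log_mul (by positivity) (by positivity), Real.log_pow, Nat.cast_pow,
            Real.log_pow]
          linarith
        obtain ⟨hf, h5⟩ := few (K := K) h0 (y := δ * Real.log B) (by positivity) h4
        have h6 : (1 + (A : ℝ) * ρ₁) * Real.log B / (δ * Real.log B) = (1 + A * ρ₁) / δ := by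
          field_simp
        rw [h6, Set.ncard_eq_toFinset_card _ hf] at h5
        have h7 : {b | (a, b) ∈ Ab G₁ G₂ ρ₁ ρ₂ P δ B} ⊆
            ⋃ p ∈ hf.toFinset.filter (P ≤ ·), {c ∈ Bx K n₂ (B ^ ρ₂) | Meet G₂ c p} := by
          rintro b ⟨-, hb2, -, p, hp1, hp2, hp3, hp4, hp5⟩
          simp only [Set.mem_iUnion, exists_prop]
          exact ⟨p, Finset.mem_filter.2 ⟨hf.mem_toFinset.2 ⟨hp1, hp3, hp4⟩, hp2⟩, hb2, hp5⟩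
        have h8 : {b | (a, b) ∈ Ab G₁ G₂ ρ₁ ρ₂ P δ B}.ncard ≤
            ∑ p ∈ hf.toFinset.filter (P ≤ ·), {c ∈ Bx K n₂ (B ^ ρ₂) | Meet G₂ c p}.ncard := by
          refine (Set.ncard_le_ncard h7 ?_).trans (ncard_bU _ _)
          exact (Bx_finite (K := K) n₂ (B ^ ρ₂)).subset (Set.iUnion₂_subset fun _ _ => Set.sep_subset _ _)
        calc ({b | (a, b) ∈ Ab G₁ G₂ ρ₁ ρ₂ P δ B}.ncard : ℝ) ≤
            ∑ p ∈ hf.toFinset.filter (P ≤ ·),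
              ({c ∈ Bx K n₂ (B ^ ρ₂) | Meet G₂ c p}.ncard : ℝ) := by exact_mod_cast h8
          _ ≤ ∑ _p ∈ hf.toFinset.filter (P ≤ ·), W := by
              refine Finset.sum_le_sum fun p hp => ?_
              have h9 := hf.mem_toFinset.1 (Finset.mem_filter.1 hp).1
              exact hpr p h9.1 (Finset.mem_filter.1 hp).2 h9.2.1
          _ = (hf.toFinset.filter (P ≤ ·)).card * W := by rw [Finset.sum_const, nsmul_eq_mul]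
          _ ≤ hf.toFinset.card * W := mul_le_mul_of_nonneg_right
              (by exact_mod_cast Finset.card_filter_le _ _) hW0
          _ ≤ _ := mul_le_mul_of_nonneg_right h5 hW0)
  rw [← Set.ncard_eq_toFinset_card _ (Bx_finite (K := K) n₁ (B ^ ρ₁))] at key
  have h2 := h₁.box (B ^ ρ₁) (Nat.one_le_pow _ _ hB)
  rw [pow_cast] at h2
  refine key.trans ((mul_le_mul_of_nonneg_right h2 (by positivity)).trans (le_of_eq ?_))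
  have e : (finrank ℚ K : ℝ) * (ρ₁ * n₁ + ρ₂ * n₂) - δ =
    (ρ₁ : ℝ) * ((finrank ℚ K : ℝ) * n₁) + (ρ₂ : ℝ) * ((finrank ℚ K : ℝ) * n₂) + -δ := by ring
  rw [e, Real.rpow_add hBp, Real.rpow_add hBp, hW]
  ring

lemma rare_small {n₁ n₂ : ℕ} {G₁ : MvPolynomial (Fin n₁) (𝓞 K)}
    {G₂ : MvPolynomial (Fin n₂) (𝓞 K)} {ρ₁ ρ₂ : ℕ} (hρ₁ : 1 ≤ ρ₁) (hρ₂ : 1 ≤ ρ₂) {C : ℝ} {P : ℕ}
    (h₁ : MD G₁ C P) (h₂ : MD G₂ C P) (hC : 1 ≤ C) (hP : C ^ 4 ≤ P) {κ : ℝ} (hκ : 0 < κ) :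
    Rare ((finrank ℚ K : ℝ) * (ρ₁ * n₁ + ρ₂ * n₂)) (As G₁ G₂ ρ₁ ρ₂ P κ) := by
  classical
  have hsum : Summable fun q : ℕ => (q : ℝ) ^ (-(5 / 4 : ℝ)) :=
    Real.summable_nat_rpow.2 (by norm_num)
  refine ⟨κ / 8, C ^ 2 * ∑' q : ℕ, (q : ℝ) ^ (-(5 / 4 : ℝ)), by positivity, fun B hB => ?_⟩
  have hB' : (1 : ℝ) ≤ B := by exact_mod_cast hB
  have hBp : (0 : ℝ) < B := by linarith
  obtain ⟨T, hT⟩ : ∃ T : Finset ℕ, T = (Finset.Icc 1 B).filter fun q : ℕ => Squarefree q ∧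
    κ / 2 * Real.log B < Real.log q ∧ ∀ p ∈ q.primeFactors, P ≤ p := ⟨_, rfl⟩
  have h1 : As G₁ G₂ ρ₁ ρ₂ P κ B ⊆ ⋃ q ∈ T,
      ({c ∈ Bx K n₁ (B ^ ρ₁) | ∀ p ∈ q.primeFactors, Meet G₁ c p} ×ˢ
        {c ∈ Bx K n₂ (B ^ ρ₂) | ∀ p ∈ q.primeFactors, Meet G₂ c p}) := by
    rintro c ⟨hc1, hc2, q, hq1, hq2, hq3, hq4⟩
    simp only [Set.mem_iUnion, exists_prop]
    refine ⟨q, ?_, ⟨hc1, fun p hp => (hq4 p hp).2.1⟩, hc2, fun p hp => (hq4 p hp).2.2⟩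
    rw [hT, Finset.mem_filter, Finset.mem_Icc]
    exact ⟨⟨Nat.one_le_iff_ne_zero.2 hq1.ne_zero, hq2⟩, hq1, hq3, fun p hp => (hq4 p hp).1⟩
  have h2 : (As G₁ G₂ ρ₁ ρ₂ P κ B).ncard ≤ ∑ q ∈ T,
      ({c ∈ Bx K n₁ (B ^ ρ₁) | ∀ p ∈ q.primeFactors, Meet G₁ c p} ×ˢ
        {c ∈ Bx K n₂ (B ^ ρ₂) | ∀ p ∈ q.primeFactors, Meet G₂ c p}).ncard := by
    refine (Set.ncard_le_ncard h1 ?_).trans (ncard_bU _ _)
    refine bx_prod (K := K) (B ^ ρ₁) (B ^ ρ₂) fun c hc => ?_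
    simp only [Set.mem_iUnion, exists_prop] at hc
    obtain ⟨q, -, hq⟩ := hc
    exact ⟨hq.1.1, hq.2.1⟩
  have h3 : ∀ q ∈ T, ((({c ∈ Bx K n₁ (B ^ ρ₁) | ∀ p ∈ q.primeFactors, Meet G₁ c p} ×ˢ
        {c ∈ Bx K n₂ (B ^ ρ₂) | ∀ p ∈ q.primeFactors, Meet G₂ c p}).ncard : ℕ) : ℝ) ≤
      C ^ 2 * (B : ℝ) ^ ((finrank ℚ K : ℝ) * (ρ₁ * n₁ + ρ₂ * n₂) - κ / 8) *
        (q : ℝ) ^ (-(5 / 4 : ℝ)) := by
    intro q hq
    rw [hT, Finset.mem_filter, Finset.mem_Icc] at hq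
    obtain ⟨⟨hq1, hqB⟩, hqs, hql, hqP⟩ := hq
    have hq0 : (0 : ℝ) < q := Nat.cast_pos.2 hq1
    have hprod : ∏ p ∈ q.primeFactors, p = q := Nat.prod_primeFactors_of_squarefree hqs
    have hprodR : ∏ p ∈ q.primeFactors, (p : ℝ) = q := by rw [← Nat.cast_prod, hprod]
    have hb1 : q ≤ B ^ ρ₁ := hqB.trans (Nat.le_self_pow (by omega) B)
    have hb2 : q ≤ B ^ ρ₂ := hqB.trans (Nat.le_self_pow (by omega) B)
    have m1 := h₁.many (B ^ ρ₁) (Nat.one_le_pow _ _ hB) q.primeFactors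
      (fun p hp => ⟨Nat.prime_of_mem_primeFactors hp, hqP p hp⟩) (by rw [hprod]; exact hb1)
    have m2 := h₂.many (B ^ ρ₂) (Nat.one_le_pow _ _ hB) q.primeFactors
      (fun p hp => ⟨Nat.prime_of_mem_primeFactors hp, hqP p hp⟩) (by rw [hprod]; exact hb2)
    rw [hprodR, pow_cast] at m1 m2
    have h4 : (C ^ 2) ^ q.primeFactors.card ≤ (q : ℝ) ^ (1 / 2 : ℝ) := by
      rw [← Finset.prod_const, ← hprodR, ← Real.finsetProd_rpow _ _ (fun p _ => by positivity)]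
      refine Finset.prod_le_prod (fun _ _ => by positivity) fun p hp => ?_
      have h5 : C ^ 4 ≤ (p : ℝ) := hP.trans (by exact_mod_cast hqP p hp)
      calc C ^ 2 = (C ^ 4) ^ (1 / 2 : ℝ) := by
            rw [← Real.rpow_natCast C 4, ← Real.rpow_mul (by positivity)]
            norm_num
        _ ≤ (p : ℝ) ^ (1 / 2 : ℝ) := Real.rpow_le_rpow (by positivity) h5 (by norm_num)
    have h6 : (q : ℝ) ^ (-(1 / 4 : ℝ)) ≤ (B : ℝ) ^ (-(κ / 8)) := by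
      rw [Real.rpow_def_of_pos hq0, Real.rpow_def_of_pos hBp, Real.exp_le_exp]
      linarith
    rw [Set.ncard_prod, Nat.cast_mul]
    have hY : (q : ℝ) ^ (1 / 2 : ℝ) / (q : ℝ) / q = (q : ℝ) ^ (-(1 / 4 : ℝ)) *
        (q : ℝ) ^ (-(5 / 4 : ℝ)) := by
      rw [← Real.rpow_add hq0, div_div, ← sq, ← Real.rpow_natCast, ← Real.rpow_sub hq0]
      norm_num
    calc _ ≤ (C ^ (q.primeFactors.card + 1) * (B : ℝ) ^ ((ρ₁ : ℝ) * ((finrank ℚ K : ℝ) * n₁)) / q) *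
          (C ^ (q.primeFactors.card + 1) * (B : ℝ) ^ ((ρ₂ : ℝ) * ((finrank ℚ K : ℝ) * n₂)) / q) :=
          mul_le_mul m1 m2 (Nat.cast_nonneg _) (by positivity)
      _ = C ^ 2 * ((B : ℝ) ^ ((ρ₁ : ℝ) * ((finrank ℚ K : ℝ) * n₁)) *
          (B : ℝ) ^ ((ρ₂ : ℝ) * ((finrank ℚ K : ℝ) * n₂))) *
            ((C ^ 2) ^ q.primeFactors.card / q / q) := by
          rw [← pow_mul]
          field_simp
          ring
      _ ≤ C ^ 2 * ((B : ℝ) ^ ((ρ₁ : ℝ) * ((finrank ℚ K : ℝ) * n₁)) *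
          (B : ℝ) ^ ((ρ₂ : ℝ) * ((finrank ℚ K : ℝ) * n₂))) *
            ((q : ℝ) ^ (1 / 2 : ℝ) / q / q) := by
          refine mul_le_mul_of_nonneg_left ?_ (by positivity)
          exact div_le_div_of_nonneg_right (div_le_div_of_nonneg_right h4 hq0.le) hq0.le
      _ = C ^ 2 * ((B : ℝ) ^ ((ρ₁ : ℝ) * ((finrank ℚ K : ℝ) * n₁)) *
          (B : ℝ) ^ ((ρ₂ : ℝ) * ((finrank ℚ K : ℝ) * n₂))) *
            ((q : ℝ) ^ (-(1 / 4 : ℝ)) * (q : ℝ) ^ (-(5 / 4 : ℝ))) := by rw [hY]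
      _ ≤ C ^ 2 * ((B : ℝ) ^ ((ρ₁ : ℝ) * ((finrank ℚ K : ℝ) * n₁)) *
          (B : ℝ) ^ ((ρ₂ : ℝ) * ((finrank ℚ K : ℝ) * n₂))) *
            ((B : ℝ) ^ (-(κ / 8)) * (q : ℝ) ^ (-(5 / 4 : ℝ))) := by
          refine mul_le_mul_of_nonneg_left ?_ (by positivity)
          exact mul_le_mul_of_nonneg_right h6 (by positivity)
      _ = _ := by
          have e : (finrank ℚ K : ℝ) * (ρ₁ * n₁ + ρ₂ * n₂) - κ / 8 =
            (ρ₁ : ℝ) * ((finrank ℚ K : ℝ) * n₁) + (ρ₂ : ℝ) * ((finrank ℚ K : ℝ) * n₂) +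
              -(κ / 8) := by ring
          rw [e, Real.rpow_add hBp, Real.rpow_add hBp]
          ring
  calc ((As G₁ G₂ ρ₁ ρ₂ P κ B).ncard : ℝ) ≤ ∑ q ∈ T,
      ((({c ∈ Bx K n₁ (B ^ ρ₁) | ∀ p ∈ q.primeFactors, Meet G₁ c p} ×ˢ
        {c ∈ Bx K n₂ (B ^ ρ₂) | ∀ p ∈ q.primeFactors, Meet G₂ c p}).ncard : ℕ) : ℝ) := by
        exact_mod_cast h2
    _ ≤ ∑ q ∈ T, C ^ 2 * (B : ℝ) ^ ((finrank ℚ K : ℝ) * (ρ₁ * n₁ + ρ₂ * n₂) - κ / 8) *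
        (q : ℝ) ^ (-(5 / 4 : ℝ)) := Finset.sum_le_sum h3
    _ = C ^ 2 * (B : ℝ) ^ ((finrank ℚ K : ℝ) * (ρ₁ * n₁ + ρ₂ * n₂) - κ / 8) *
        ∑ q ∈ T, (q : ℝ) ^ (-(5 / 4 : ℝ)) := by rw [Finset.mul_sum]
    _ ≤ C ^ 2 * (B : ℝ) ^ ((finrank ℚ K : ℝ) * (ρ₁ * n₁ + ρ₂ * n₂) - κ / 8) *
        ∑' q : ℕ, (q : ℝ) ^ (-(5 / 4 : ℝ)) := by
        refine mul_le_mul_of_nonneg_left ?_ (by positivity)
        exact hsum.sum_le_tsum T fun q _ => by positivity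
    _ = _ := by ring

end

theorem t (hMod : StmMod) : StmGcd := by
  classical
  intro K _ _ n₁ n₂ hn₁ hn₂ G₁ G₂ hG₁ hG₂ ρ₁ ρ₂ hρ₁ hρ₂ κ hκ
  obtain ⟨C₁, P₁, hC₁, h₁⟩ := hMod K n₁ hn₁ G₁ hG₁
  obtain ⟨C₂, P₂, hC₂, h₂⟩ := hMod K n₂ hn₂ G₂ hG₂
  have m₁ : MD G₁ C₁ P₁ := ⟨fun X hX => (h₁ X hX).1, fun X hX => (h₁ X hX).2.1,
    fun X hX => (h₁ X hX).2.2⟩
  have m₂ : MD G₂ C₂ P₂ := ⟨fun X hX => (h₂ X hX).1, fun X hX => (h₂ X hX).2.1,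
    fun X hX => (h₂ X hX).2.2⟩
  obtain ⟨C, hC⟩ : ∃ C : ℝ, C = max C₁ C₂ := ⟨_, rfl⟩
  obtain ⟨P, hP⟩ : ∃ P : ℕ, P = max (max P₁ P₂) ⌈C ^ 4⌉₊ := ⟨_, rfl⟩
  have hC1 : 1 ≤ C := by rw [hC]; exact hC₁.trans (le_max_left _ _)
  have hP4 : C ^ 4 ≤ P := by
    rw [hP]
    refine (Nat.le_ceil _).trans ?_
    exact_mod_cast le_max_right _ _
  have M₁ : MD G₁ C P := m₁.mono (by linarith) (by rw [hC]; exact le_max_left _ _)
    (by rw [hP]; exact (le_max_left _ _).trans (le_max_left _ _))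
  have M₂ : MD G₂ C P := m₂.mono (by linarith) (by rw [hC]; exact le_max_right _ _)
    (by rw [hP]; exact (le_max_right _ _).trans (le_max_left _ _))
  have hd : (1 : ℝ) ≤ finrank ℚ K := by
    exact_mod_cast (finrank_pos : 0 < finrank ℚ K)
  have hN : 1 ≤ (finrank ℚ K : ℝ) * (ρ₁ * n₁ + ρ₂ * n₂) := by
    have e1 : (1 : ℝ) ≤ ρ₁ := by exact_mod_cast hρ₁
    have e2 : (1 : ℝ) ≤ n₁ := by exact_mod_cast hn₁
    have e3 : (0 : ℝ) ≤ (ρ₂ : ℝ) * n₂ := by positivity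
    have e4 : (1 : ℝ) ≤ ρ₁ * n₁ := one_le_mul_of_one_le_of_one_le e1 e2
    exact one_le_mul_of_one_le_of_one_le hd (by linarith)
  obtain ⟨κ', hκ'⟩ : ∃ κ' : ℝ, κ' = min κ 1 := ⟨_, rfl⟩
  have hk0 : 0 < κ' := by rw [hκ']; exact lt_min hκ one_pos
  have hk1 : κ' ≤ 1 := by rw [hκ']; exact min_le_right _ _
  have hkk : κ' ≤ κ := by rw [hκ']; exact min_le_left _ _
  have r0 := rare_zero (K := K) (ρ₂ := ρ₂) hρ₁ M₁ M₂ (by linarith)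
  have r1 := rare_big (K := K) (by simpa using hd) (ρ₁ := ρ₁) hρ₂ hN M₁ M₂ (by linarith)
    (δ := κ' / 4) (by positivity) (by linarith)
  have r2 := rare_small (K := K) hρ₁ hρ₂ M₁ M₂ hC1 hP4 hk0
  obtain ⟨C₀, hC₀⟩ : ∃ C₀ : ℝ, C₀ = ∑ p ∈ Finset.range P, Real.log p := ⟨_, rfl⟩
  obtain ⟨B₀, hB₀⟩ := ev_log (max 1 (C₀ / (κ' / 4)))
  have hR : Rare ((finrank ℚ K : ℝ) * (ρ₁ * n₁ + ρ₂ * n₂)) (fun B =>
      {c : (Fin n₁ → 𝓞 K) × (Fin n₂ → 𝓞 K) | c.1 ∈ Bx K n₁ (B ^ ρ₁) ∧ c.2 ∈ Bx K n₂ (B ^ ρ₂) ∧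
      ∃ Q : Finset ℕ, (∀ p ∈ Q, p.Prime ∧ Meet G₁ c.1 p ∧ Meet G₂ c.2 p) ∧
        κ * Real.log B < ∑ p ∈ Q, Real.log p}) := by
    refine Rare.of_large hN (r0.union (r1.union r2)) B₀ (fun B => ?_) fun B hb => ?_
    · refine bx_prod (K := K) (B ^ ρ₁) (B ^ ρ₂) fun c hc => ?_
      rcases hc with hc | hc | hc
      · exact ⟨hc.1, hc.2.1⟩
      · exact ⟨hc.1, hc.2.1⟩
      · exact ⟨hc.1, hc.2.1⟩
    · have hl := hB₀ B hb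
      have hl1 : 1 ≤ Real.log B := (le_max_left _ _).trans hl
      have hl2 : C₀ ≤ κ' / 4 * Real.log B := by
        have := (le_max_right _ _).trans hl
        rw [div_le_iff₀ (by positivity)] at this
        linarith
      have hBp : (0 : ℝ) < B := by
        rcases Nat.eq_zero_or_pos B with h | h
        · rw [h] at hl1
          norm_num at hl1
        · exact_mod_cast h
      rintro c ⟨hc1, hc2, Q, hQ, hQl⟩
      by_cases h0 : MvPolynomial.eval c.1 G₁ = 0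
      · exact Or.inl ⟨hc1, hc2, h0⟩
      right
      have hlog : ∀ p : ℕ, 0 ≤ Real.log p := fun p => Real.log_natCast_nonneg p
      have s1 : ∑ p ∈ Q, Real.log p = ∑ p ∈ Q.filter (P ≤ ·), Real.log p +
          ∑ p ∈ Q.filter (¬ P ≤ ·), Real.log p := (Finset.sum_filter_add_sum_filter_not _ _ _).symm
      have s2 : ∑ p ∈ Q.filter (¬ P ≤ ·), Real.log p ≤ C₀ := by
        rw [hC₀]
        refine Finset.sum_le_sum_of_subset_of_nonneg (fun p hp => ?_) fun p _ _ => hlog p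
        rw [Finset.mem_filter] at hp
        exact Finset.mem_range.2 (not_le.1 hp.2)
      have s3 : κ' / 2 * Real.log B < ∑ p ∈ Q.filter (P ≤ ·), Real.log p := by
        nlinarith
      by_cases hbig : ∃ p ∈ Q.filter (P ≤ ·), κ' / 4 * Real.log B ≤ Real.log p
      · obtain ⟨p, hp, hpl⟩ := hbig
        rw [Finset.mem_filter] at hp
        obtain ⟨e1, e2, e3⟩ := hQ p hp.1
        exact Or.inl ⟨hc1, hc2, h0, p, e1, hp.2, hpl, e2, e3⟩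
      · push Not at hbig
        obtain ⟨Q', hQ', t1, t2⟩ := greedy (fun p : ℕ => Real.log p) (by positivity)
          (Q.filter (P ≤ ·)) (fun p hp => (hbig p hp).le) s3
        have hpr : ∀ p ∈ Q', p.Prime := fun p hp => (hQ p (Finset.mem_filter.1 (hQ' hp)).1).1
        have hpf : (∏ p ∈ Q', p).primeFactors = Q' := Nat.primeFactors_prod hpr
        have hlp : Real.log ((∏ p ∈ Q', p : ℕ) : ℝ) = ∑ p ∈ Q', Real.log p := by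
          rw [Nat.cast_prod, Real.log_prod fun p hp => Nat.cast_ne_zero.2 (hpr p hp).ne_zero]
        have hpos : 0 < ∏ p ∈ Q', p := Finset.prod_pos fun p hp => (hpr p hp).pos
        refine Or.inr ⟨hc1, hc2, ∏ p ∈ Q', p, ?_, ?_, ?_, ?_⟩
        · refine Finset.squarefree_prod_of_pairwise_isCoprime ?_ fun p hp => (hpr p hp).squarefree
          intro a ha b hb hab
          exact Nat.coprime_iff_isRelPrime.1 ((Nat.coprime_primes (hpr a ha) (hpr b hb)).2 hab)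
        · have : ((∏ p ∈ Q', p : ℕ) : ℝ) ≤ B := by
            rw [← Real.log_le_log_iff (by exact_mod_cast hpos) hBp, hlp]
            nlinarith
          exact_mod_cast this
        · rw [hlp]
          exact t1
        · intro p hp
          rw [hpf] at hp
          have hp' := Finset.mem_filter.1 (hQ' hp)
          exact ⟨hp'.2, (hQ p hp'.1).2⟩
  exact hR

end Pool.Agent.N787.PC.Gcd
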