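import Mathlib
import Pool.Agent.N753.DR.Stm6
import Pool.Agent.N97.DR.Core
import Pool.Agent.N530.DR.Large1

/-!
# PC/GCD (helper787, project PC of helper753): large common prime factors of two polynomial values
are rare
-/

set_option autoImplicit false

namespace Pool.Agent.N787.PC.Gcd

open NumberField IsDedekindDomain Module Polynomial
open Pool.Agent.N753.DR Pool.Agent.N97.DR.Core

lemma greedy (f : ℕ → ℝ) {δ T : ℝ} (hT : 0 ≤ T) (Q : Finset ℕ) (h : ∀ p ∈ Q, f p ≤ δ)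
    (hQ : T < ∑ p ∈ Q, f p) : ∃ Q' ⊆ Q, T < ∑ p ∈ Q', f p ∧ ∑ p ∈ Q', f p ≤ T + δ := by
  classical
  induction Q using Finset.induction_on with
  | empty =>
    rw [Finset.sum_empty] at hQ
    exact absurd hQ (not_lt.2 hT)
  | insert a s ha ih =>
    by_cases h1 : T < ∑ p ∈ s, f p
    · obtain ⟨Q', h2, h3⟩ := ih (fun p hp => h p (Finset.mem_insert_of_mem hp)) h1
      exact ⟨Q', h2.trans (Finset.subset_insert _ _), h3⟩
    · refine ⟨insert a s, subset_rfl, hQ, ?_⟩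
      rw [Finset.sum_insert ha]
      have := h a (Finset.mem_insert_self _ _)
      linarith

lemma ncard_bU {α β : Type} (T : Finset β) (f : β → Set α) :
    (⋃ b ∈ T, f b).ncard ≤ ∑ b ∈ T, (f b).ncard := by
  classical
  induction T using Finset.induction_on with
  | empty => simp
  | insert x T hx ih =>
    rw [Finset.set_biUnion_insert, Finset.sum_insert hx]
    exact (Set.ncard_union_le _ _).trans (Nat.add_le_add_left ih _)

lemma fib {α β : Type} (S : Set (α × β)) (s : Finset α) (hS : ∀ x ∈ S, x.1 ∈ s) (M : ℝ)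
    (hM : ∀ a ∈ s, ({b | (a, b) ∈ S}.ncard : ℝ) ≤ M) : (S.ncard : ℝ) ≤ s.card * M := by
  have h1 : S = ⋃ a ∈ s, (fun b => (a, b)) '' {b | (a, b) ∈ S} := by
    ext ⟨a, b⟩
    simp only [Set.mem_iUnion, Set.mem_image, Set.mem_setOf_eq, exists_prop]
    constructor
    · intro h
      exact ⟨a, hS _ h, b, h, rfl⟩
    · rintro ⟨a', _, b', h, he⟩
      rw [← he]
      exact h
  have h3 : S.ncard ≤ ∑ a ∈ s, {b | (a, b) ∈ S}.ncard := by
    conv_lhs => rw [h1]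
    refine (ncard_bU _ _).trans (Finset.sum_le_sum fun a _ => ?_)
    rw [Set.ncard_image_of_injective _ (Prod.mk_right_injective a)]
  calc (S.ncard : ℝ) ≤ ∑ a ∈ s, ({b | (a, b) ∈ S}.ncard : ℝ) := by exact_mod_cast h3
    _ ≤ ∑ _a ∈ s, M := Finset.sum_le_sum hM
    _ = s.card * M := by rw [Finset.sum_const, nsmul_eq_mul]

section

variable {K : Type} [Field K] [NumberField K]

lemma val_bound {n : ℕ} (G : MvPolynomial (Fin n) (𝓞 K)) : ∃ (A : ℕ) (C : ℝ), 1 ≤ C ∧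
    ∀ X : ℕ, 1 ≤ X → ∀ c ∈ Bx K n X, ∀ σ : K →ₐ[ℚ] ℂ,
      ‖σ ((MvPolynomial.eval c G : 𝓞 K) : K)‖ ≤ C * (X : ℝ) ^ A := by
  induction G using MvPolynomial.induction_on with
  | C a =>
    refine ⟨0, 1 + ∑ σ : K →ₐ[ℚ] ℂ, ‖σ (a : K)‖, ?_, fun X _ c _ σ => ?_⟩
    · have : 0 ≤ ∑ σ : K →ₐ[ℚ] ℂ, ‖σ (a : K)‖ := Finset.sum_nonneg fun _ _ => norm_nonneg _
      linarith
    · rw [MvPolynomial.eval_C, pow_zero, mul_one]
      have : ‖σ (a : K)‖ ≤ ∑ σ : K →ₐ[ℚ] ℂ, ‖σ (a : K)‖ :=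
        Finset.single_le_sum (f := fun σ : K →ₐ[ℚ] ℂ => ‖σ (a : K)‖)
          (fun _ _ => norm_nonneg _) (Finset.mem_univ σ)
      linarith
  | add p q hp hq =>
    obtain ⟨A, C, hC, h⟩ := hp
    obtain ⟨A', C', hC', h'⟩ := hq
    refine ⟨A + A', C + C', by linarith, fun X hX c hc σ => ?_⟩
    have hX' : (1 : ℝ) ≤ X := by exact_mod_cast hX
    have e1 : (X : ℝ) ^ A ≤ (X : ℝ) ^ (A + A') := pow_le_pow_right₀ hX' (by omega)
    have e2 : (X : ℝ) ^ A' ≤ (X : ℝ) ^ (A + A') := pow_le_pow_right₀ hX' (by omega)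
    have e3 : ((MvPolynomial.eval c (p + q) : 𝓞 K) : K) =
        ((MvPolynomial.eval c p : 𝓞 K) : K) + ((MvPolynomial.eval c q : 𝓞 K) : K) := by
      rw [map_add]
      exact map_add (algebraMap (𝓞 K) K) _ _
    rw [e3, map_add]
    calc ‖σ ((MvPolynomial.eval c p : 𝓞 K) : K) + σ ((MvPolynomial.eval c q : 𝓞 K) : K)‖
        ≤ ‖σ ((MvPolynomial.eval c p : 𝓞 K) : K)‖ + ‖σ ((MvPolynomial.eval c q : 𝓞 K) : K)‖ :=
          norm_add_le _ _
      _ ≤ C * (X : ℝ) ^ A + C' * (X : ℝ) ^ A' := add_le_add (h X hX c hc σ) (h' X hX c hc σ)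
      _ ≤ C * (X : ℝ) ^ (A + A') + C' * (X : ℝ) ^ (A + A') :=
          add_le_add (mul_le_mul_of_nonneg_left e1 (by linarith))
            (mul_le_mul_of_nonneg_left e2 (by linarith))
      _ = _ := by ring
  | mul_X p i hp =>
    obtain ⟨A, C, hC, h⟩ := hp
    obtain ⟨M, hM⟩ : ∃ M : ℝ, M = ∑ σ : K →ₐ[ℚ] ℂ,
        ∑ i, ‖σ ((RingOfIntegers.basis K i : 𝓞 K) : K)‖ := ⟨_, rfl⟩
    have hM0 : 0 ≤ M := by
      rw [hM]
      exact Finset.sum_nonneg fun _ _ => Finset.sum_nonneg fun _ _ => norm_nonneg _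
    refine ⟨A + 1, C * (M + 1), by nlinarith, fun X hX c hc σ => ?_⟩
    have hX' : (1 : ℝ) ≤ X := by exact_mod_cast hX
    have h1 : ‖σ ((c i : 𝓞 K) : K)‖ ≤ (M + 1) * X := by
      have h2 := norm_le_sz ((σ : K →+* ℂ).comp (algebraMap (𝓞 K) K)) (c i)
      have h3 : (sz (c i) : ℝ) ≤ X := by exact_mod_cast hc i
      have h4 : (∑ i, ‖((σ : K →+* ℂ).comp (algebraMap (𝓞 K) K)) (RingOfIntegers.basis K i)‖) ≤ M := by
        rw [hM]
        exact Finset.single_le_sum (f := fun σ : K →ₐ[ℚ] ℂ =>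
          ∑ i, ‖σ ((RingOfIntegers.basis K i : 𝓞 K) : K)‖)
          (fun _ _ => Finset.sum_nonneg fun _ _ => norm_nonneg _) (Finset.mem_univ σ)
      calc ‖σ ((c i : 𝓞 K) : K)‖ ≤ _ := h2
        _ ≤ M * X := mul_le_mul h4 h3 (Nat.cast_nonneg _) hM0
        _ ≤ _ := by nlinarith
    have e3 : ((MvPolynomial.eval c (p * MvPolynomial.X i) : 𝓞 K) : K) =
        ((MvPolynomial.eval c p : 𝓞 K) : K) * ((c i : 𝓞 K) : K) := by
      rw [map_mul, MvPolynomial.eval_X]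
      exact map_mul (algebraMap (𝓞 K) K) _ _
    rw [e3, map_mul, norm_mul]
    calc ‖σ ((MvPolynomial.eval c p : 𝓞 K) : K)‖ * ‖σ ((c i : 𝓞 K) : K)‖
        ≤ (C * (X : ℝ) ^ A) * ((M + 1) * X) :=
          mul_le_mul (h X hX c hc σ) h1 (norm_nonneg _) (by positivity)
      _ = _ := by ring

lemma norm_bound {n : ℕ} (G : MvPolynomial (Fin n) (𝓞 K)) : ∃ (A : ℕ) (C : ℝ), 1 ≤ C ∧
    ∀ X : ℕ, 1 ≤ X → ∀ c ∈ Bx K n X,
      (Ideal.absNorm (Ideal.span {MvPolynomial.eval c G}) : ℝ) ≤ C * (X : ℝ) ^ A := by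
  obtain ⟨A, C, hC, h⟩ := val_bound G
  refine ⟨A * finrank ℚ K, C ^ finrank ℚ K, one_le_pow₀ hC, fun X hX c hc => ?_⟩
  refine (Pool.Agent.N530.DR.absNorm_le _ _ (h X hX c hc)).trans (le_of_eq ?_)
  rw [mul_pow, ← pow_mul]

lemma dvd_of_mem {v : HeightOneSpectrum (𝓞 K)} {p : ℕ} (hp : p.Prime)
    (h : (p : 𝓞 K) ∈ v.asIdeal) : p ∣ Ideal.absNorm v.asIdeal := by
  by_contra hn
  have hc : Nat.Coprime p (Ideal.absNorm v.asIdeal) := (Nat.Prime.coprime_iff_not_dvd hp).2 hn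
  have h1 : IsCoprime ((p : ℤ)) (Ideal.absNorm v.asIdeal : ℤ) := Nat.isCoprime_iff_coprime.2 hc
  obtain ⟨a, b, hab⟩ := h1
  have h2 : (1 : 𝓞 K) ∈ v.asIdeal := by
    have h3 : (1 : 𝓞 K) = (a : 𝓞 K) * (p : 𝓞 K) +
        (b : 𝓞 K) * ((Ideal.absNorm v.asIdeal : ℕ) : 𝓞 K) := by
      have := congrArg (Int.cast : ℤ → 𝓞 K) hab.symm
      push_cast at this
      exact this
    rw [h3]
    exact add_mem (Ideal.mul_mem_left _ _ h) (Ideal.mul_mem_left _ _ (Ideal.absNorm_mem _))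
  exact v.isPrime.ne_top ((Ideal.eq_top_iff_one _).2 h2)

lemma meet_dvd {n : ℕ} {G : MvPolynomial (Fin n) (𝓞 K)} {c : Fin n → 𝓞 K} {p : ℕ} (hp : p.Prime)
    (h : Meet G c p) : p ∣ Ideal.absNorm (Ideal.span {MvPolynomial.eval c G}) := by
  obtain ⟨v, h1, h2⟩ := h
  refine (dvd_of_mem hp h1).trans (Ideal.absNorm_dvd_absNorm_of_le ?_)
  rw [Ideal.span_singleton_le_iff_mem]
  exact h2

lemma few {n : ℕ} {G : MvPolynomial (Fin n) (𝓞 K)} {c : Fin n → 𝓞 K}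
    (h0 : MvPolynomial.eval c G ≠ 0) {y R : ℝ} (hy : 0 < y)
    (hR : Real.log (Ideal.absNorm (Ideal.span {MvPolynomial.eval c G})) ≤ R) :
    {p : ℕ | p.Prime ∧ y ≤ Real.log p ∧ Meet G c p}.Finite ∧
      ({p : ℕ | p.Prime ∧ y ≤ Real.log p ∧ Meet G c p}.ncard : ℝ) ≤ R / y := by
  have hn : Ideal.absNorm (Ideal.span {MvPolynomial.eval c G}) ≠ 0 := by
    rw [Ne, Ideal.absNorm_eq_zero_iff, Ideal.span_singleton_eq_bot]
    exact h0
  have hfin : {p : ℕ | p.Prime ∧ y ≤ Real.log p ∧ Meet G c p}.Finite := by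
    refine (Nat.primeFactors (Ideal.absNorm (Ideal.span {MvPolynomial.eval c G}))).finite_toSet.subset
      fun p hp => ?_
    rw [Finset.mem_coe, Nat.mem_primeFactors]
    exact ⟨hp.1, meet_dvd hp.1 hp.2.2, hn⟩
  refine ⟨hfin, ?_⟩
  rw [Set.ncard_eq_toFinset_card _ hfin, le_div_iff₀ hy]
  have h1 : ∏ p ∈ hfin.toFinset, p ∣ Ideal.absNorm (Ideal.span {MvPolynomial.eval c G}) := by
    refine Finset.prod_primes_dvd _ (fun p hp => ?_) (fun p hp => ?_)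
    · exact Nat.Prime.prime ((hfin.mem_toFinset.1 hp).1)
    · exact meet_dvd (hfin.mem_toFinset.1 hp).1 (hfin.mem_toFinset.1 hp).2.2
  have h2 : ((∏ p ∈ hfin.toFinset, p : ℕ) : ℝ) ≤
      Ideal.absNorm (Ideal.span {MvPolynomial.eval c G}) := by
    exact_mod_cast Nat.le_of_dvd (Nat.pos_of_ne_zero hn) h1
  have hpos : ∀ p ∈ hfin.toFinset, (p : ℝ) ≠ 0 := fun p hp =>
    Nat.cast_ne_zero.2 (hfin.mem_toFinset.1 hp).1.ne_zero
  have h3 : ∑ p ∈ hfin.toFinset, Real.log p ≤ R := by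
    rw [← Real.log_prod hpos]
    refine le_trans (Real.log_le_log ?_ ?_) hR
    · exact Finset.prod_pos fun p hp => Nat.cast_pos.2 (hfin.mem_toFinset.1 hp).1.pos
    · rw [Nat.cast_prod] at h2
      exact h2
  refine le_trans ?_ h3
  rw [← nsmul_eq_mul, ← Finset.sum_const]
  exact Finset.sum_le_sum fun p hp => (hfin.mem_toFinset.1 hp).2.1

end

end Pool.Agent.N787.PC.Gcd
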